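import Pool.Agent.Lib.JC99.Slow

open Pool.Agent.Lib.MP_d54a3f_ag

namespace Pool.Agent.Results.MP_d54a3f_ag.HVectors

/-- Let `h₁, h₂` be the `h`-vectors of two distinct integral ACM space curves that realize the
maximal intersection number. Suppose `hᵢ(fᵢ) ≤ fᵢ`, `hᵢ(nᵢ) ≠ 0`, `f₁ ≤ min nᵢ + 1`,
`f₁ + f₂ ≤ j + 2`, the two `h`-vectors sum up to degree `j` to more than the number of plane
curves of degree `j`, `f₁ ≤ e + 1`, and in case `min nᵢ + 1 < f₂` the drops of `h₂` over `e` steps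
after any degree `g ≥ f₂` add up to less than the sum of `h₁` up to degree `g + e`. Then the union
is ACM. -/
theorem result {k : Type*} [Field k] [IsAlgClosed k] (P₁ P₂ : Ideal (MvPolynomial (Fin 4) k))
    (h₁ : IsIntACM P₁) (h₂ : IsIntACM P₂) (hne : P₁ ≠ P₂) (hR : Realizes P₁ P₂)
    (f₁ f₂ n₁ n₂ j e : ℕ) (s₁ : hvec P₁ f₁ ≤ f₁) (s₂ : hvec P₂ f₂ ≤ f₂)
    (hn₁ : hvec P₁ n₁ ≠ 0) (hn₂ : hvec P₂ n₂ ≠ 0) (hf : f₁ ≤ min n₁ n₂ + 1)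
    (hj : f₁ + f₂ ≤ j + 2)
    (hs : ((j + 2).choose 2 : ℤ) < ∑ n ∈ Finset.range (j + 1), (hvec P₁ n + hvec P₂ n))
    (he : f₁ ≤ e + 1)
    (hg : min n₁ n₂ + 1 < f₂ → ∀ g, f₂ ≤ g →
      ∑ i ∈ Finset.range e, (hvec P₂ g - hvec P₂ (g + 1 + i)) <
        ∑ n ∈ Finset.range (g + e + 1), hvec P₁ n) :
    IsACM (P₁ ⊓ P₂) :=
  Pool.Agent.Lib.JC99.numeric2 h₁ h₂ hne hR s₁ s₂ hn₁ hn₂ hf hj
    (Pool.Agent.Lib.JC99.qne_of_hvec h₁ h₂ hs) he hg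

end Pool.Agent.Results.MP_d54a3f_ag.HVectors
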