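import Pool.Agent.Lib.MP_d54a3f_ag.Main

open Pool.Agent.Lib.MP_d54a3f_ag

namespace Pool.Agent.Results.MP_d54a3f_ag.LowSurface

/-- Two distinct integral ACM space curves that realize the maximal intersection number for their
`h`-vectors and lie on a common surface of degree `f`, where each `h`-vector is nonzero in some
degree `≥ f - 1`, have an ACM union. -/
theorem result {k : Type*} [Field k] [IsAlgClosed k] (P₁ P₂ : Ideal (MvPolynomial (Fin 4) k))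
    (h₁ : IsIntACM P₁) (h₂ : IsIntACM P₂) (hne : P₁ ≠ P₂) (hR : Realizes P₁ P₂)
    (F : MvPolynomial (Fin 4) k) (f : ℕ) (hF : F.IsHomogeneous f) (hF0 : F ≠ 0)
    (m₁ : F ∈ P₁) (m₂ : F ∈ P₂) (n₁ n₂ : ℕ) (hn₁ : hvec P₁ n₁ ≠ 0) (hn₂ : hvec P₂ n₂ ≠ 0)
    (l₁ : f ≤ n₁ + 1) (l₂ : f ≤ n₂ + 1) : IsACM (P₁ ⊓ P₂) :=
  main h₁ h₂ hne hR hF hF0 m₁ m₂ hn₁ hn₂ l₁ l₂

end Pool.Agent.Results.MP_d54a3f_ag.LowSurface
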